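import Pool.Agent.K4H62.EL.Fam

/-!
# Pseudo-geometrically hyperbolic images of fibrations by curves

Let `V` be a projective variety over `ℂ` of dimension `n + 1` and `V ⇢ V'` a rational map with
irreducible generic fibres onto a variety of dimension `n`, with function field `ℂ(t 1, ..., t N)`;
let `H` be the pullback of the hyperplane class under `V ⇢ V' ⊂ ℙ ^ N`. The fibres are curves of any
genus. Suppose that there are sections of `K_V - M H` which generate the regular differentials of
the (geometric) generic fibre: canonical forms `ω j` on `V` such that `t ^ a ω j` is regular for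
`|a| ≤ M` and such that the restrictions of the `ω j` generate. For example `V` may be a general
hypersurface of multidegree `(e 1, ..., e n, a, b)` in `(ℙ ^ 1) ^ (n + 2)` with `e l ≥ M + 2`.

Let `V ⇢ W` be any dominant rational map of finite degree to a projective variety `W`, of arbitrary
singularities; the map is not assumed to be related to the fibration `V ⇢ V'`. Let `W'` be the image
of `V` in `W × V'`, and let `m` be the degree of `W' → W`; it is at most the degree of `V ⇢ W`.

**Theorem.** Suppose that `2 m ≤ M + 1`. If `W` is pseudo-geometrically hyperbolic then `W` is of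
general type, as conjectured by Lang. It suffices that, outside of a proper closed subset of `W`,
there are only finitely many morphisms with a given value at the marked point from the pointed curves
of genus at most one, i.e. from the projective line and the curves `Y ^ 2 = X ^ 3 + a X + b`. It also
suffices that the degrees of the morphisms from each curve of genus at most one to `W`, which do not
map the curve to a fixed proper closed subset, are bounded.

Proof. Let `h j` be the trace on `W'` of the form `ω j`. If the quotient `u` of two of the `h j` is
not a function on `V'` then the forms `Tr (A(t) u ^ e h)` on `W`, with `deg A ≤ M`, `e ≤ 1`, have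
`n + 1` algebraically independent ratios, so `W` is of general type. Otherwise the traces of the
regular differentials of the fibres of `V ⇢ V'` show that the geometric generic fibre `Γ` of
`W' ⇢ V'` has at most one regular differential. If `Γ` is rational then `W` is uniruled, and there
are infinitely many morphisms from a pointed line to `W` with a given general value. If `Γ` is not
rational then it is a curve of genus one over the algebraic closure `Λ` of `ℂ(V')`. Let `Z` be a
proper closed subset of `W`, and let `Q` be a point of `Γ` whose image in `W` is not in `Z`. By the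
duality theorem, applied at `Q`, the curve `Γ` has the equation `Y ^ 2 = X ^ 3 + a X + b`, with `Q`
at infinity. The curve, and the map `Γ → W`, which is given by linear combinations of the functions
`1, X, Y, X ^ 2, X Y, ...`, are specialised to a curve `E` over `ℂ` and a nonconstant map `E → W`
which maps the origin to a point outside of `Z`; the composition with the powers of the
multiplication by `-2` gives infinitely many morphisms with the same value at the origin.
-/

set_option autoImplicit false
set_option linter.overlappingInstances false
set_option maxHeartbeats 4000000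
set_option synthInstance.maxHeartbeats 400000

open FF Module Pool.Agent Pool.Agent.W602.GT Pool.Agent.W603.LV
open Pool.Agent.W602.RG (PointedMaps PseudoGeomHyp)
open Pool.Agent.W603.PV (pht)

namespace Pool.Agent.Results.MP_5b1cbc_ag.ImagesOfCurveFibrations

/-- `ω` is a canonical form on the variety of dimension `n` with the function field `K` which is a
section of `K_V - M H`, where `H` is the pullback of the hyperplane class under the map given by
`1, t 1, ..., t N`: the forms `t ^ a ω`, `|a| ≤ M`, are regular at all prime divisors. -/
def Twisted {K : Type} [Field K] [Algebra ℂ K] {N : ℕ} (n M : ℕ) (t : Fin N → K)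
    (ω : (Fin n → Derivation ℂ K K) → K) : Prop :=
  IsPluri 1 ω ∧ ∀ a : Fin N → ℕ, ∑ j, a j ≤ M → ∀ P : Place ℂ K, Divisorial n P →
    RegAt P (fun D => (∏ j, t j ^ a j) * ω D)

/-- The restrictions of the canonical forms `ω j` on `V` to the geometric generic fibre of
`V ⇢ V'`, `ℂ(V') = B`, generate its regular differentials. Here `F` is the function field of the
geometric generic fibre, over the algebraically closed field `Λ`, and `φ : K → F` is the
restriction; `ξ` is a coordinate of the fibre, `E` are the vector fields dual to the coordinates
`t, ξ` of `V`, and the restriction of `ω j` is `φ (ω j E) dξ`; a differential `f dξ` on the fibre is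
regular if `ord_Q f + ord_Q dξ ≥ 0` for all places `Q`, where `ord_Q dξ = - vo Q D`, `D = d/dξ`. -/
def GenerateFibre {K : Type} [Field K] [Algebra ℂ K] {n : ℕ} {J : Type}
    (B : IntermediateField ℂ K) (ω : J → (Fin (n + 1) → Derivation ℂ K K) → K) : Prop :=
  ∀ (Λ F : Type) [Field Λ] [IsAlgClosed Λ] [Algebra ℂ Λ] [Field F] [Algebra Λ F]
    [Algebra ℂ F] [IsScalarTower ℂ Λ F] (φ : K →ₐ[ℂ] F), IsFF Λ F →
    IntermediateField.adjoin Λ (Set.range φ) = ⊤ →
    (∀ z ∈ B, ∃ a : Λ, algebraMap Λ F a = φ z) →
    (∀ z : K, ¬ IsAlgebraic B z → Transcendental Λ (φ z)) →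
    ∀ (t : Fin n → K) (ξ : K), (∀ j, t j ∈ B) →
      IsTranscendenceBasis ℂ (Fin.append t (fun _ : Fin 1 => ξ)) →
    ∀ E : Fin (n + 1) → Derivation ℂ K K,
      (∀ i j, E i (Fin.append t (fun _ : Fin 1 => ξ) j) = if i = j then 1 else 0) →
    ∀ D : Derivation Λ F F, D (φ ξ) = 1 →
      (∀ j (Q : Place Λ F), φ (ω j E) = 0 ∨ vo Q D ≤ Q.ord (φ (ω j E))) →
    ∀ f : F, f ≠ 0 → (∀ Q : Place Λ F, vo Q D ≤ Q.ord f) →
      f ∈ Submodule.span Λ (Set.range fun j => φ (ω j E))

/-- The smooth projective curve with the function field `E` is the projective line or a curve of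
genus one: `E` is generated by one function, or by two functions with the equation
`Y ^ 2 = X ^ 3 + a X + b`, where `X ^ 3 + a X + b` has three different roots. -/
def GenusLeOne (E : Type) [Field E] [Algebra ℂ E] : Prop :=
  (∃ s : E, IntermediateField.adjoin ℂ {s} = ⊤) ∨
    ∃ (a b : ℂ) (X Y : E), 4 * a ^ 3 + 27 * b ^ 2 ≠ 0 ∧
      Y ^ 2 = X ^ 3 + algebraMap ℂ E a * X + algebraMap ℂ E b ∧
      IntermediateField.adjoin ℂ {X, Y} = ⊤

/-- Pseudo-geometric hyperbolicity, tested on the curves of genus at most one: outside a proper
closed subset `G = 0` of the projective variety with generic point `x`, for every pointed curve of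
genus at most one there are only finitely many morphisms to the variety with a given value at the
marked point. -/
def FiniteGenusLeOne {L : Type} [Field L] [Algebra ℂ L] {M : ℕ} (x : Fin (M + 1) → L) : Prop :=
  ∃ G : MvPolynomial (Fin (M + 1)) ℂ, IsForm G ∧ val x G ≠ 0 ∧
    ∀ (E : Type) [Field E] [Algebra ℂ E] [IsFF ℂ E], GenusLeOne E → ∀ (c : Place ℂ E),
      ∀ p ∈ VarPts ℂ x, val p G ≠ 0 → (PointedMaps x c p).Finite

/-- Outside a proper closed subset `G = 0` of the projective variety with generic point `x`, the
degrees of the morphisms from every curve of genus at most one are bounded. -/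
def BoundedGenusLeOne {L : Type} [Field L] [Algebra ℂ L] {M : ℕ} (x : Fin (M + 1) → L) : Prop :=
  ∃ G : MvPolynomial (Fin (M + 1)) ℂ, IsForm G ∧ val x G ≠ 0 ∧
    ∀ (E : Type) [Field E] [Algebra ℂ E] [IsFF ℂ E], GenusLeOne E → ∃ D : ℤ,
      ∀ f : Fin (M + 1) → E, Pool.Agent.R882.HY.OnVar ℂ x f → val f G ≠ 0 → pht ℂ f ≤ D

/-- **Pseudo-geometrically hyperbolic images of fibrations by curves.** Let `V` be a variety of
dimension `n + 1` with function field `K`, and `V ⇢ V'` a rational map onto a variety of dimension
`n` with function field `ℂ(t)`, with irreducible generic fibres. Let the `ω j` be finitely many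
canonical forms such that the `t ^ a ω j`, `|a| ≤ M`, are regular and whose restrictions generate the
regular differentials of the geometric generic fibre. Let `V ⇢ W` be a dominant rational map of
finite degree to a projective variety `W`, with the function field `L` and the generic point `x`, and
let `m` be the degree over `W` of the image of `V` in `W × V'`. If `2 m ≤ M + 1` then `W` is of
general type if it is pseudo-geometrically hyperbolic, or if there are only finitely many pointed
morphisms from the pointed curves of genus at most one, or if the degrees of the morphisms from each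
curve of genus at most one are bounded, off a proper closed subset of `W`. -/
theorem result {n N M : ℕ} {K : Type} [Field K] [Algebra ℂ K] [Algebra.EssFiniteType ℂ K]
    (hK : Algebra.trdeg ℂ K = (n + 1 : ℕ)) {t : Fin N → K}
    (hd : Algebra.trdeg ℂ (IntermediateField.adjoin ℂ (Set.range t)) = (n : ℕ))
    (hcl : ∀ g : K, IsAlgebraic (IntermediateField.adjoin ℂ (Set.range t)) g →
      g ∈ IntermediateField.adjoin ℂ (Set.range t))
    {J : Type} [Finite J] {ω : J → (Fin (n + 1) → Derivation ℂ K K) → K}
    (hω : ∀ j, Twisted (n + 1) M t (ω j))
    (hgen : GenerateFibre (IntermediateField.adjoin ℂ (Set.range t)) ω)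
    (L : Type) [Field L] [Algebra ℂ L] [Algebra L K] [IsScalarTower ℂ L K]
    [FiniteDimensional L K]
    (hm : 2 * Module.finrank L (IntermediateField.adjoin L (Set.range t)) ≤ M + 1)
    {M' : ℕ} {x : Fin (M' + 1) → L} (hx : x ≠ 0) (hcoords : coords ℂ x = ⊤) :
    (PseudoGeomHyp ℂ x → GeneralType ℂ L (n + 1)) ∧
    (FiniteGenusLeOne x → GeneralType ℂ L (n + 1)) ∧
    (BoundedGenusLeOne x → GeneralType ℂ L (n + 1)) := by
  have hL : Algebra.trdeg ℂ L = (n + 1 : ℕ) := Pool.Agent.Y184.NT.trdeg_below (K := K) hK
  obtain ⟨h1, h2⟩ := Pool.Agent.K4H62.EL.hyp_of_trichotomy hL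
    (Pool.Agent.K4H62.EL.tri_ab hK hd hcl hω hgen L hm) hx hcoords
  exact ⟨fun h => h1 (Pool.Agent.K4H62.EL.geom1_of h), h1, h2⟩

end Pool.Agent.Results.MP_5b1cbc_ag.ImagesOfCurveFibrations
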