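import Pool.Agent.K4H62.EL.Fam

/-!
# Pseudo-geometrically hyperbolic images of products of curves

Let `C 0, C 1, ..., C n` be projective curves over the complex numbers, where `C 0` is arbitrary and
the gonality of `C p` is at least `M p + 2` for `p ≥ 1`: all nonconstant rational functions on `C p`
have degree at least `M p + 2`. Let `V = C 0 × ... × C n`, and let `V ⇢ W` be a dominant rational map
of finite degree to a projective variety `W`, of arbitrary singularities. The map is arbitrary; it is
not assumed to be related to the product structure, or to be Galois. Let `V' = C 1 × ... × C n`, let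
`W'` be the image of `V` in `W × V'` and, for a nonempty set `Λ` of indices `p ≥ 1`, let `W' Λ` be its
image in the product of `W` and the `C p`, `p ∉ Λ`, and `m Λ` the degree of `W' → W' Λ`. In
particular `m Λ ≤ m`, where `m` is the degree of `V ⇢ W`.

**Theorem.** Suppose that `2 m Λ ≤ 1 + ∑_{p ∈ Λ} M p` for all `Λ ≠ ∅`; for example
`2 m < gon (C p)` for `p ≥ 1`. If `W` is pseudo-geometrically hyperbolic then `W` is of general
type, as conjectured by Lang. It suffices that, outside of a proper closed subset of `W`, there are
only finitely many morphisms with a given value at the marked point from the pointed curves of genus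
at most one, i.e. from the projective line and the curves `Y ^ 2 = X ^ 3 + a X + b`. It also suffices
that the degrees of the morphisms from each curve of genus at most one to `W`, which do not map the
curve to a fixed proper closed subset, are bounded.

If the genus of `C 0` is at least two then `V` is of general type, and in fact geometrically
hyperbolic, but its images need not be of general type; examples are `ℙ ^ 1 × C 1 × ... × C n` and
`E × C 1 × ... × C n`, if there is a map from `C 0` to a curve `E` of genus one.

Proof. Let `h j` be the trace on `W'` of the form `η j ∧ d x 1 ∧ ... ∧ d x n`, where the `η j` are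
the regular differentials on `C 0` and `x p` is a function on `C p`. If the quotient `u` of two of
the `h j` is not a function on `V'` then the forms `Tr (G u ^ e h)` on `W`, where `e ≤ 1` and `G` is a
product of functions `g p` on `C p` such that `g p d x p` is regular, have `n + 1` algebraically
independent ratios: the functions `G u ^ e` separate the points over two points of `W`, by the theorem
of Riemann-Roch on the curves and the marriage theorem. So `W` is of general type. Otherwise the
geometric generic fibre `Γ` of `W' ⇢ V'` has at most one regular differential. If `Γ` is rational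
then `W` is uniruled, and there are infinitely many morphisms from a pointed line to `W` with a given
general value. If `Γ` is not rational then it is a curve of genus one over the algebraic closure of
`ℂ(V')`. Let `Z` be a proper closed subset of `W`, and let `Q` be a point of `Γ` whose image in `W`
is not in `Z`. By the duality theorem, applied at `Q`, the curve `Γ` has the equation
`Y ^ 2 = X ^ 3 + a X + b`, with `Q` at infinity. The curve, and the map `Γ → W`, which is given by
linear combinations of the functions `1, X, Y, X ^ 2, X Y, ...`, are specialised to a curve `E` over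
`ℂ` and a nonconstant map `E → W` which maps the origin to a point outside of `Z`; the composition
with the powers of the multiplication by `-2` gives infinitely many morphisms with the same value at
the origin.
-/

set_option autoImplicit false
set_option linter.overlappingInstances false
set_option maxHeartbeats 4000000
set_option synthInstance.maxHeartbeats 400000

open FF Module Pool.Agent Pool.Agent.W602.GT
open Pool.Agent.W602.RG (PointedMaps PseudoGeomHyp)
open Pool.Agent.W603.PV (pht)

namespace Pool.Agent.Results.MP_5b1cbc_ag.ImagesOfProductsOfCurves

/-- The gonality of the curve with the function field `E` is at least `g`: all nonconstant functions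
have degree at least `g`. -/
def GonalityGe (E : Type) [Field E] [Algebra ℂ E] (g : ℕ) : Prop :=
  ∀ b : E, Transcendental ℂ b → g ≤ finrank (IntermediateField.adjoin ℂ {b}) E

/-- The degree `m Λ` of `W' → W' Λ`: the degree of the field which is generated over `L` by the
function fields of the curves `C p` over its subfield which is generated by those with `p ∉ Λ`. -/
noncomputable def blockDegree {K : Type} [Field K] [Algebra ℂ K] {n : ℕ} (L : Type) [Field L]
    [Algebra L K] (C : Fin n → IntermediateField ℂ K) (Λ : Finset (Fin n)) : ℕ :=
  (IntermediateField.adjoin L {z | ∃ p, p ∉ Λ ∧ z ∈ C p}).relfinrank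
    (IntermediateField.adjoin L {z | ∃ p, z ∈ C p})

/-- The smooth projective curve with the function field `E` is the projective line or a curve of
genus one: `E` is generated by one function, or by two functions with the equation
`Y ^ 2 = X ^ 3 + a X + b`, where `X ^ 3 + a X + b` has three different roots. -/
def GenusLeOne (E : Type) [Field E] [Algebra ℂ E] : Prop :=
  (∃ s : E, IntermediateField.adjoin ℂ {s} = ⊤) ∨
    ∃ (a b : ℂ) (X Y : E), 4 * a ^ 3 + 27 * b ^ 2 ≠ 0 ∧
      Y ^ 2 = X ^ 3 + algebraMap ℂ E a * X + algebraMap ℂ E b ∧
      IntermediateField.adjoin ℂ {X, Y} = ⊤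

/-- Pseudo-geometric hyperbolicity, tested on the curves of genus at most one: outside a proper
closed subset `G = 0` of the projective variety with generic point `x`, for every pointed curve of
genus at most one there are only finitely many morphisms to the variety with a given value at the
marked point. -/
def FiniteGenusLeOne {L : Type} [Field L] [Algebra ℂ L] {M : ℕ} (x : Fin (M + 1) → L) : Prop :=
  ∃ G : MvPolynomial (Fin (M + 1)) ℂ, IsForm G ∧ val x G ≠ 0 ∧
    ∀ (E : Type) [Field E] [Algebra ℂ E] [IsFF ℂ E], GenusLeOne E → ∀ (c : Place ℂ E),
      ∀ p ∈ VarPts ℂ x, val p G ≠ 0 → (PointedMaps x c p).Finite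

/-- Outside a proper closed subset `G = 0` of the projective variety with generic point `x`, the
degrees of the morphisms from every curve of genus at most one are bounded. -/
def BoundedGenusLeOne {L : Type} [Field L] [Algebra ℂ L] {M : ℕ} (x : Fin (M + 1) → L) : Prop :=
  ∃ G : MvPolynomial (Fin (M + 1)) ℂ, IsForm G ∧ val x G ≠ 0 ∧
    ∀ (E : Type) [Field E] [Algebra ℂ E] [IsFF ℂ E], GenusLeOne E → ∃ D : ℤ,
      ∀ f : Fin (M + 1) → E, Pool.Agent.R882.HY.OnVar ℂ x f → val f G ≠ 0 → pht ℂ f ≤ D

/-- **Pseudo-geometrically hyperbolic images of products of curves.** Let `K` be the function field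
of the product `V` of `n + 1` curves, where the curve `p` has the function field `C p`: the field `K`
is generated by the `C p` and has transcendence degree `n + 1`. Let the gonality of the curves with
`p ≥ 1` be at least `M p + 2`. Let `V ⇢ W` be a dominant rational map of finite degree to a
projective variety `W`, with the function field `L` and the generic point `x`. If
`2 m Λ ≤ 1 + ∑_{p ∈ Λ} M p` for all nonempty sets `Λ` of indices `p ≥ 1` then `W` is of general type
if it is pseudo-geometrically hyperbolic, or if there are only finitely many pointed morphisms from
the pointed curves of genus at most one, or if the degrees of the morphisms from each curve of genus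
at most one are bounded, off a proper closed subset of `W`. -/
theorem result {n : ℕ} {K : Type} [Field K] [Algebra ℂ K]
    {C : Fin (n + 1) → IntermediateField ℂ K} (hfg : ∀ p, Algebra.EssFiniteType ℂ (C p))
    (hone : ∀ p, Algebra.trdeg ℂ (C p) = 1) (hgen : ⨆ p, C p = ⊤)
    (hK : Algebra.trdeg ℂ K = (n + 1 : ℕ)) {M : Fin n → ℕ}
    (hgon : ∀ p : Fin n, GonalityGe (C p.succ) (M p + 2))
    (L : Type) [Field L] [Algebra ℂ L] [Algebra L K] [IsScalarTower ℂ L K]
    [FiniteDimensional L K]
    (hm : ∀ Λ : Finset (Fin n), Λ.Nonempty →
      2 * blockDegree L (fun p : Fin n => C p.succ) Λ ≤ 1 + ∑ p ∈ Λ, M p)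
    {M' : ℕ} {x : Fin (M' + 1) → L} (hx : x ≠ 0) (hcoords : coords ℂ x = ⊤) :
    (PseudoGeomHyp ℂ x → GeneralType ℂ L (n + 1)) ∧
    (FiniteGenusLeOne x → GeneralType ℂ L (n + 1)) ∧
    (BoundedGenusLeOne x → GeneralType ℂ L (n + 1)) := by
  have hFF : ∀ p, IsFF ℂ (C p) := fun p => ⟨hfg p, hone p⟩
  have hL : Algebra.trdeg ℂ L = (n + 1 : ℕ) := Pool.Agent.Y184.NT.trdeg_below (K := K) hK
  obtain ⟨h1, h2⟩ := Pool.Agent.K4H62.EL.hyp_of_trichotomy hL
    (Pool.Agent.K4H62.EL.tri_pc (C := C) hgen hK (M := M) (fun p b hb => hgon p b hb) L
      (fun Λ hΛ => (hm Λ hΛ).trans_eq (add_comm _ _))) hx hcoords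
  exact ⟨fun h => h1 (Pool.Agent.K4H62.EL.geom1_of h), h1, h2⟩

end Pool.Agent.Results.MP_5b1cbc_ag.ImagesOfProductsOfCurves
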