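import Pool.Agent.K4H65.DM.Bound

/-!
MP_5b1cbc_ag, Q1: general type and pseudo-geometric hyperbolicity for the projective varieties which
are dominated, with degree at most `r`, by varieties with multiple fibres over projective lines.

`k` is an algebraically closed field of characteristic zero, and `V` is a closed subset of
`P^N × P^1 × ... × P^1` (`n` lines). The arcs in `V` which are not contained in a given closed subset
`R = 0` meet the fibres of `V` over finitely many points `c` of the lines (`c ∈ A p` for the `p`-th
line) with contact order `0`, `∞` or at least `m p c` (`MultipleFibres`). The multiplicities are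
large with respect to `ρ r` (`Wide`): for all `g, s ≥ 1` with `g s ≤ ρ r` and all lines the sum of
the numbers `1 - 1 / ⌈m p c / g⌉` is larger than `2 s`. This holds for instance if `m p c > ρ r` for
all `c ∈ A p` and `∑ (1 - 1 / m p c) > 2 ρ r` (`wide_example`).

`X` is any projective variety for which there are a variety `W`, a dominant rational map `W ⇢ X`
which is generically finite of degree at most `r`, and a rational map `W ⇢ V`, with image not
contained in `R = 0`, such that `W ⇢ P^1 × ... × P^1` is generically finite onto its image (neither
`W ⇢ V` nor `W ⇢ P^1 × ... × P^1` has to be dominant). Then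

* `X` is of general type;
* `X` is pseudo-geometrically hyperbolic;
* outside of a proper closed subset of `X`, the degree of every morphism to `X` from a covering `C'`
  of degree at most `ρ` of a smooth projective curve `C` is at most `B max (2 g (C) - 2, 0)`
  (`CoverBound`; the genus of `C'`, and the branch points of `C' → C`, do not matter).

For `ρ = 1` the last property is a linear bound in the genus for the degrees of the curves in `X`.
For example `W = V` can be any surface `(C_1 × C_2) / G` isogenous to a product with
`C_1 / G = C_2 / G = P^1` and many branch points; it maps to no curve of positive genus, and its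
Albanese variety is trivial. The normalization of `C` in the function field of `W` is a covering of
degree at most `r` of `C`, with an unbounded number of branch points.
-/

set_option autoImplicit false

open FF IntermediateField

namespace Pool.Agent.Results.MP_5b1cbc_ag.MultipleFibreImages

open Pool.Agent.K4H65.DM
open Pool.Agent.W602.GT (GeneralType coords)
open Pool.Agent.W602.RG (PseudoGeomHyp)
open Pool.Agent.Y221.PB (CoverBound CoverBound.curve)
open Pool.Agent.Y216 (pointed_of_bound)

/-- **General type and pseudo-geometric hyperbolicity of the varieties dominated by varieties with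
multiple fibres.** `K'` is the function field of `W`, and `L` the one of `X`; `(a, b)` are the
homogeneous coordinates of the image of the generic point of `W` in `V`, and `x` those of the
generic point of `X`. -/
theorem result {k : Type} [Field k] [IsAlgClosed k] [CharZero k] {N n r ρ : ℕ} (hρ : 1 ≤ ρ)
    (V : ProdSet k N n) (R : MPoly k N n) (hRh : MHom R)
    (A : Fin n → Finset k) (m : Fin n → k → ℕ) (hV : MultipleFibres V R A m)
    (hwide : ∀ p, Wide (ρ * r) (A p) (m p))
    {K' L : Type} [Field K'] [Field L] [Algebra k K'] [Algebra k L] [Algebra L K']
    [IsScalarTower k L K'] [FiniteDimensional L K'] (hr : Module.finrank L K' ≤ r)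
    (a : Fin (N + 1) → K') (b : Fin n → Fin 2 → K') (hab : V.Mem a b)
    (hR : MvPolynomial.aeval (Sum.elim a fun v => b v.1 v.2) R ≠ 0)
    (halg : Algebra.IsAlgebraic (IntermediateField.adjoin k
      (Set.range fun p => b p 0 / b p 1)) K')
    {M : ℕ} (x : Fin (M + 1) → L) (hx : x ≠ 0) (hgen : coords k x = ⊤) :
    (∀ w : ℕ, Algebra.trdeg k L = w → GeneralType k L w) ∧ PseudoGeomHyp k x ∧
      CoverBound k ρ x := by
  have h := cover_dm hRh hV hwide hr hab hR halg hx hgen
  refine ⟨fun _ htr => gt_dm hRh hV (fun p => ?_) hr hab hR halg htr,
    pointed_of_bound (h.curve hρ), h⟩
  exact (hwide p).mono (Nat.le_mul_of_pos_left r hρ)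

/-- The simplest case of the condition on the multiplicities. -/
theorem wide_example {k : Type} [Field k] {r : ℕ} {S : Finset k} {m : k → ℕ}
    (hm : ∀ c ∈ S, r < m c)
    (hsum : 2 * (r : ℝ) < ∑ c ∈ S, (1 - 1 / (m c : ℝ))) : Wide r S m :=
  wide_of hm hsum

end Pool.Agent.Results.MP_5b1cbc_ag.MultipleFibreImages
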