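import Pool.Agent.K4H25.MG.E
/-!
# Hyperbolicity of product-quotient varieties

Let `C 0, ..., C (n - 1)` be smooth projective curves over an algebraically closed field `k` of
characteristic zero, `V = C 0 × ... × C (n - 1)`, and let `G` be a finite group of automorphisms of
`V` which preserves the factors (it acts on each curve `C i`, not necessarily faithfully). Put
`B i = C i / G`. The finite coverings of products of curves `B 0 × ... × B (n - 1)` which are
branched only over fibres of the projections to the `B i` are exactly these varieties `V / G`.
In general they have many singularities, and the curves `B i` are rational. We give a numerical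
criterion, on the local monodromy, under which all projective varieties `X` with a generically finite
dominant rational map `X ⇢ V / G` (for instance, all varieties birational to `V / G`) are of general
type and pseudo-geometrically hyperbolic, so that the conjecture of Lang is true for `X`.

The criterion (`Criterion`). For a point `w` of `C i` over `p ∈ B i` with the ramification index `r`
let `γ w` be the generator of its stabilizer in the group of `C i` over `B i` which rotates the
tangent line by `exp (2 π i / r)`. There are weights `α i > 0` and `δ i p ≤ 1` (which may be negative,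
almost all of them zero) for the points `p` of the curves `B i` such that
* the degree of `K + ∑ p, δ i p · p` on `B i` is positive for all `i`;
* if `(γ (w 0) ^ k 0, ..., γ (w (n - 1)) ^ k (n - 1))` is in `G`, for points `w i` of `C i` over `p i` and
  integers `k i ≥ 1`, then `∑ i, α i * k i * (1 - δ i (p i)) ≥ ∑ i, α i`.
(In terms of an element `g` of order `N` which rotates `C i` at `w i` by `ζ ^ c i`, `c i ≥ 1`, for a
primitive `N`-th root of unity `ζ`, this is `∑ i, α i * r i * (1 - δ i (p i)) * c i ≥ (∑ i, α i) * N`;
this is how the criterion is stated below; for `g = 1` and general points `w j`, `j ≠ i`, it says that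
`r (1 - δ i p) ≥ 1`.)

Only the tuples with `k i = 1` for all `i` give an obstruction if the `δ i` are small. Let us say that
a point of `B i` is bad if it is `p i` for a tuple with `(γ (w 0), ..., γ (w (n - 1))) ∈ G` for some
points `w j` over `p j`. For instance the criterion is true, with `α i = 1` and `δ i = 1 / (n + 1)` at the
branch points of `C i` over `B i` which are not bad, if the number of these points is larger than
`2 n + 2` if `B i` is rational, and positive if `B i` is elliptic.

**Theorem.** Under this condition there are a proper closed subset `Z` of `X` and a constant `A` such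
that `deg f ≤ A * max (2 g - 2) 0` for all maps `f : D → X` from a smooth projective curve of genus `g`
with `f(D) ⊄ Z`. So `X` is pseudo-geometrically hyperbolic; and `X` is of general type.

Proof. Let `f : D → X` be a map not into `Z`, `E` the function field of `D`. For a suitable finite
Galois extension `N` of `E` with group `Γ` the map `D ⇢ V / G` comes from embeddings `ι i` of the
function fields of the curves `C i` in `N`, for the indices `i` in a subset `I` (the other coordinates
are constant), and every `σ ∈ Γ` acts on them as some `g ∈ G`, which is trivial on `C i` for `i ∉ I`.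
At a place of `N` over a point `z` of `D` with ramification index `e` the inertia group is generated by
an element `σ` which acts as the rotation by a primitive `e`-th root of unity `η`, so `g` rotates the
curves `C i` by `η ^ f i`, where `f i` is the index of the place over `C i`. So the criterion for
`g` says that `∑_{i ∈ I} α i * k i * (1 - δ i (p i)) ≥ ∑_{i ∈ I} α i` where `k i` is the multiplicity
of `D → B i` at `z` and `p i` the image of `z`. The sum over all points `z` and the formulas of Riemann
and Hurwitz for the maps `D → B i` give
`∑_{i ∈ I} α i * deg (D → B i) * deg (K + δ i) ≤ (∑_{i ∈ I} α i) * (2 g - 2)`.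
The degree of `f` is bounded linearly by the degrees of `D → B i` (heights of algebraic elements).
The finiteness of pointed maps follows by bend and break. For the general type, the products of the
pull-backs of pluricanonical forms on the `B i` with logarithmic poles of the orders `max (δ i) 0` are
regular on the resolutions of `V / G`.
-/

set_option autoImplicit false
set_option linter.overlappingInstances false
set_option maxHeartbeats 4000000
set_option synthInstance.maxHeartbeats 400000

open FF IntermediateField

namespace Pool.Agent.Results.MP_5b1cbc_ag.ProductQuotients

open Pool.Agent.W602.GT (GeneralType coords)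
open Pool.Agent.W602.RG (PseudoGeomHyp)
open Pool.Agent.W603.LV (canDeg Ge)
open Pool.Agent.W603.PV (pht)
open Pool.Agent.W619.PL (LiesOver)
open Pool.Agent.Y216 (OnVar)

variable {k : Type} [Field k] {M : Type} [Field M] [Algebra k M] {n : ℕ}

/-- The automorphism `g` fixes the point (the place) `w` of the curve with the function field `C` and
acts on the cotangent line as `θ`: `g t = θ t + (higher order)` for the local parameters `t`. -/
def Rotates (C : IntermediateField k M) (g : M ≃ₐ[k] M) (w : Place k C) (θ : k) : Prop :=
  ∀ t z : C, w.ord t = 1 → g t = z → Ge w 2 (z - algebraMap k C θ * t)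

/-- **The criterion** for the group `G` which acts on the product of the curves with the function
fields `C i`, with the weights `α i` and `δ i p`, `p` a point of the curve `C i / G` (a place of its
function field `C i ⊓ fixedField G`); `canDeg` is the degree of the canonical divisor, and
`LiesOver _ w p r` says that the point `w` lies over `p` with the ramification index `r`. -/
structure Criterion (C : Fin n → IntermediateField k M) (G : Subgroup (M ≃ₐ[k] M))
    (α : Fin n → ℚ) (δ : ∀ i, Place k ↥(C i ⊓ fixedField G) → ℚ) : Prop where
  pos : ∀ i, 0 < α i
  degree : ∀ i, ∃ T : Finset (Place k ↥(C i ⊓ fixedField G)), (∀ p ∉ T, δ i p = 0) ∧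
    0 < (canDeg k ↥(C i ⊓ fixedField G) : ℚ) + ∑ p ∈ T, δ i p
  rotation : ∀ g ∈ G, ∀ ζ : k, IsPrimitiveRoot ζ (orderOf g) →
    ∀ (w : ∀ i, Place k (C i)) (p : ∀ i, Place k ↥(C i ⊓ fixedField G)) (r c : Fin n → ℕ),
      (∀ i, LiesOver (inf_le_left : C i ⊓ fixedField G ≤ C i) (w i) (p i) (r i)) →
      (∀ i, 0 < c i) → (∀ i, Rotates (C i) g (w i) (ζ ^ c i)) →
      (∑ i, α i) * orderOf g ≤ ∑ i, α i * (r i * (1 - δ i (p i)) * c i)

/-- Linear bound for the degrees of curves on the projective variety with generic point `x` (a
strong form of algebraic hyperbolicity): outside a proper closed subset `F = 0`, the degree of a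
morphism from a smooth projective curve of genus `g` to the variety is at most
`A * max (2 * g - 2) 0`. -/
def LinearDegreeBound (k : Type) [Field k] {L : Type} [Field L] [Algebra k L] {m : ℕ}
    (x : Fin (m + 1) → L) : Prop :=
  ∃ F : MvPolynomial (Fin (m + 1)) k, (∃ d, F.IsHomogeneous d) ∧ MvPolynomial.aeval x F ≠ 0 ∧
    ∃ A : ℕ, ∀ (E : Type) [Field E] [Algebra k E] [IsFF k E] (f : Fin (m + 1) → E),
      (∃ j, f j ≠ 0) → (∀ H : MvPolynomial (Fin (m + 1)) k, (∃ d, H.IsHomogeneous d) →
        MvPolynomial.aeval x H = 0 → MvPolynomial.aeval f H = 0) →
      MvPolynomial.aeval f F ≠ 0 → pht k f ≤ A * max (canDeg k E) 0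

/-- **Hyperbolicity of product-quotient varieties.** `M` is the function field of the product `V` of
the `n` smooth projective curves with the function fields `C i` over the algebraically closed field
`k` of characteristic zero, `G` a finite group of automorphisms of `V` which preserves the factors,
for which the criterion is true, and `X` a projective variety, with the function field `L` and the
generic point `x`, with a generically finite dominant rational map to `V / G`. Then `X` is of general
type and pseudo-geometrically hyperbolic, with a linear bound for the degrees of the curves outside a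
proper closed subset. -/
theorem result [IsAlgClosed k] [CharZero k] (hM : Algebra.trdeg k M = n)
    (C : Fin n → IntermediateField k M) [hC : ∀ i, IsFF k (C i)] (hsup : ⨆ i, C i = ⊤)
    (G : Subgroup (M ≃ₐ[k] M)) [Finite G] (hG : ∀ g ∈ G, ∀ i, ∀ z ∈ C i, g z ∈ C i)
    (α : Fin n → ℚ) (δ : ∀ i, Place k ↥(C i ⊓ fixedField G) → ℚ) (h : Criterion C G α δ)
    {L : Type} [Field L] [Algebra k L] [Algebra (fixedField G) L]
    [IsScalarTower k (fixedField G) L] [FiniteDimensional (fixedField G) L]
    {m : ℕ} {x : Fin (m + 1) → L} (hx : x ≠ 0) (hL : coords k x = ⊤) :
    GeneralType k L n ∧ PseudoGeomHyp k x ∧ LinearDegreeBound k x := by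
  choose T hT hdeg using h.degree
  have h1 := Pool.Agent.K4H25.HY.curve_bound C hsup G hG h.pos (h.rotation) T hT hdeg hx hL
  refine ⟨Pool.Agent.K4H25.HY.general_of_hage C hM hsup G hG h.pos (h.rotation) T hT hdeg,
    Pool.Agent.Y216.pointed_of_bound h1, ?_⟩
  obtain ⟨F, hF, hFx, A, hA⟩ := h1
  exact ⟨F, hF, hFx, A, fun E _ _ _ f hf0 hf hfF => hA E f ⟨hf0, hf⟩ hfF⟩

end Pool.Agent.Results.MP_5b1cbc_ag.ProductQuotients
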